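import Pool.Agent.H96.SWP.Cover

/-!
# Partitions into parts of smaller width in all dimensions
-/

set_option autoImplicit false

open MeasureTheory Set
open scoped ENNReal NNReal Pointwise

namespace Pool.Agent.Results.MP_b9beb9_co.AllDimensions

open Pool.Agent.H96.SWP

/-- A subset of `F` contained in a translate of `r • ½(F - F)`, `r < 1`, has smaller width. -/
theorem width_lt {n : ℕ} {F C : Set (EuclideanSpace ℝ (Fin n))} (hF : IsCompact F)
    (hFi : (interior F).Nonempty) (hC : C = (2:ℝ)⁻¹ • (F - F)) {r : ℝ} (hr : 0 ≤ r) (hr1 : r < 1)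
    {G : Set (EuclideanSpace ℝ (Fin n))} {c : EuclideanSpace ℝ (Fin n)}
    (hG : ∀ x ∈ G, x - c ∈ r • C) {u : EuclideanSpace ℝ (Fin n)} (hu : ‖u‖ = 1) :
    sSup ((fun x => inner ℝ u x) '' G) - sInf ((fun x => inner ℝ u x) '' G)
      < sSup ((fun x => inner ℝ u x) '' F) - sInf ((fun x => inner ℝ u x) '' F) := by
  set f : EuclideanSpace ℝ (Fin n) → ℝ := fun x => inner ℝ u x with hf
  have hfc : Continuous f := by
    rw [hf]
    fun_prop
  have hcF : IsCompact (f '' F) := hF.image hfc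
  set M : ℝ := sSup (f '' F) with hM
  set m : ℝ := sInf (f '' F) with hm
  have hMF : ∀ z ∈ F, f z ≤ M := fun z hz => le_csSup hcF.bddAbove (mem_image_of_mem f hz)
  have hmF : ∀ z ∈ F, m ≤ f z := fun z hz => csInf_le hcF.bddBelow (mem_image_of_mem f hz)
  have hpos : m < M := by
    obtain ⟨x, hx⟩ := hFi
    obtain ⟨s, hs, hball⟩ := Metric.isOpen_iff.mp isOpen_interior x hx
    have hxF : x ∈ F := interior_subset hx
    have hyF : x + (s / 2) • u ∈ F := by
      apply interior_subset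
      apply hball
      rw [Metric.mem_ball, dist_eq_norm, add_sub_cancel_left, norm_smul, hu, mul_one,
        Real.norm_of_nonneg (by positivity)]
      linarith
    have e : f (x + (s / 2) • u) = f x + s / 2 := by
      rw [hf]
      simp only [inner_add_right, inner_smul_right, real_inner_self_eq_norm_sq, hu]
      ring
    have h1 := hMF _ hyF
    have h2 := hmF _ hxF
    rw [e] at h1
    linarith
  rcases G.eq_empty_or_nonempty with h0 | h0
  · rw [h0, image_empty, Real.sSup_empty, Real.sInf_empty]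
    linarith
  have hval : ∀ x ∈ G, ∃ w, f x = f c + r * w ∧ -((M - m) / 2) ≤ w ∧ w ≤ (M - m) / 2 := by
    intro x hx
    have h1 := hG x hx
    rw [hC] at h1
    obtain ⟨_, ⟨_, ⟨a, ha, b, hb, rfl⟩, rfl⟩, h2⟩ := h1
    refine ⟨(f a - f b) / 2, ?_, ?_, ?_⟩
    · have h3 : x = c + r • ((2:ℝ)⁻¹ • (a - b)) := by
        simp only at h2
        rw [h2]
        abel
      rw [h3, hf]
      simp only [inner_add_right, inner_smul_right, inner_sub_right]
      ring
    · linarith [hmF a ha, hMF b hb]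
    · linarith [hMF a ha, hmF b hb]
  have hdiff : ∀ x ∈ G, ∀ y ∈ G, f x - r * (M - m) ≤ f y := by
    intro x hx y hy
    obtain ⟨w, hw, -, hw2⟩ := hval x hx
    obtain ⟨v, hv, hv1, -⟩ := hval y hy
    rw [hw, hv]
    nlinarith [mul_le_mul_of_nonneg_left hw2 hr, mul_le_mul_of_nonneg_left hv1 hr]
  have h1 : ∀ x ∈ G, f x - r * (M - m) ≤ sInf (f '' G) := by
    intro x hx
    apply le_csInf (h0.image f)
    rintro _ ⟨y, hy, rfl⟩
    exact hdiff x hx y hy
  have h2 : sSup (f '' G) ≤ sInf (f '' G) + r * (M - m) := by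
    apply csSup_le (h0.image f)
    rintro _ ⟨x, hx, rfl⟩
    linarith [h1 x hx]
  have h3 : r * (M - m) < 1 * (M - m) := mul_lt_mul_of_pos_right hr1 (by linarith)
  linarith

/-- The numerical inequality. -/
theorem numeric {n : ℕ} (hn : 4 ≤ n) {R : ℝ} (hR : 1 ≤ R) {L δ : ℝ} (hL : L = Real.log n)
    (hδ : δ = 1 / (8 * n * L)) :
    0 < δ ∧ 2 * δ < 1 ∧
      (n * Real.log (4 / δ)) * R / (1 - 2 * δ) ^ n + 1 ≤
        R * (n * Real.log n + n * Real.log (Real.log n) + 5 * n) := by
  have hn4 : (4:ℝ) ≤ n := by exact_mod_cast hn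
  have hn0 : (0:ℝ) < n := by linarith
  have hlog2 := Real.log_two_gt_d9
  have hlog2' := Real.log_two_lt_d9
  have hL1 : 1.386 < L := by
    rw [hL]
    have h1 : Real.log 4 ≤ Real.log n := Real.log_le_log (by norm_num) hn4
    have h2 : Real.log 4 = 2 * Real.log 2 := by
      rw [show (4:ℝ) = 2 ^ 2 by norm_num, Real.log_pow]
      norm_num
    linarith
  have hL0 : 0 < L := by linarith
  have hδ0 : 0 < δ := by
    rw [hδ]
    positivity
  have hnδ : n * (2 * δ) = 1 / (4 * L) := by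
    rw [hδ]
    field_simp
    norm_num
  have h4L : 1 / (4 * L) < 1 := by
    rw [div_lt_one (by linarith)]
    linarith
  have h2δ : 2 * δ < 1 := by
    have : 2 * δ ≤ n * (2 * δ) := by nlinarith
    linarith
  refine ⟨hδ0, h2δ, ?_⟩
  have hbern : 1 - 1 / (4 * L) ≤ (1 - 2 * δ) ^ n := by
    have := one_add_mul_le_pow (a := -(2 * δ)) (by linarith) n
    rw [← sub_eq_add_neg] at this
    linarith
  have hlog : Real.log (4 / δ) = 5 * Real.log 2 + L + Real.log L := by
    have h1 : 4 / δ = 2 ^ 5 * n * L := by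
      rw [hδ]
      field_simp
      norm_num
    rw [h1, Real.log_mul (by positivity) hL0.ne', Real.log_mul (by norm_num) hn0.ne',
      Real.log_pow, ← hL]
    norm_num
  have hlogL : Real.log L ≤ L - 1 := Real.log_le_sub_one_of_pos hL0
  have hlogL0 : 0 ≤ Real.log L := Real.log_nonneg (by linarith)
  set A := L + Real.log L with hA
  have hden : 0 < 1 - 1 / (4 * L) := by linarith
  have key : (5 * Real.log 2 + A) / (1 - 1 / (4 * L)) + 1 / 4 ≤ A + 5 := by
    have h1 : (5 * Real.log 2 + A) / (1 - 1 / (4 * L)) ≤ A + 5 - 1 / 4 := by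
      rw [div_le_iff₀ hden]
      have h2 : (A + 5 - 1 / 4) * (1 / (4 * L)) ≤ 5 - 1 / 4 - 5 * Real.log 2 := by
        rw [mul_one_div, div_le_iff₀ (by linarith)]
        nlinarith
      nlinarith
    linarith
  have hX : (n * Real.log (4 / δ)) * R / (1 - 2 * δ) ^ n ≤
      n * R * ((5 * Real.log 2 + A) / (1 - 1 / (4 * L))) := by
    rw [hlog]
    have e : n * R * ((5 * Real.log 2 + A) / (1 - 1 / (4 * L))) =
        n * (5 * Real.log 2 + L + Real.log L) * R / (1 - 1 / (4 * L)) := by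
      rw [hA]
      ring
    rw [e]
    apply div_le_div_of_nonneg_left _ hden hbern
    have : 0 ≤ 5 * Real.log 2 + L + Real.log L := by linarith
    positivity
  have hlast : (1:ℝ) ≤ n * R * (1 / 4) := by nlinarith
  calc (n * Real.log (4 / δ)) * R / (1 - 2 * δ) ^ n + 1
      ≤ n * R * ((5 * Real.log 2 + A) / (1 - 1 / (4 * L))) + n * R * (1 / 4) := by linarith
    _ = n * R * ((5 * Real.log 2 + A) / (1 - 1 / (4 * L)) + 1 / 4) := by ring
    _ ≤ n * R * (A + 5) := by
        apply mul_le_mul_of_nonneg_left key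
        positivity
    _ = R * (n * Real.log n + n * Real.log (Real.log n) + 5 * n) := by
        rw [hA, ← hL]
        ring

/-- Every convex body `F` in `ℝⁿ`, `n ≥ 4`, is the union of
`N ≤ (vol(3F - F) / vol(F - F)) (n ln n + n ln ln n + 5n) ≤ 2ⁿ (n ln n + n ln ln n + 5n)`
pairwise disjoint sets of smaller width. -/
theorem main (n : ℕ) (hn : 4 ≤ n) (F : Set (EuclideanSpace ℝ (Fin n)))
    (hFc : Convex ℝ F) (hF : IsCompact F) (hFi : (interior F).Nonempty) :
      ∃ N : ℕ,
        (N : ℝ) * (volume (F - F)).toReal ≤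
          (volume ((3:ℝ) • F - F)).toReal *
            (n * Real.log n + n * Real.log (Real.log n) + 5 * n) ∧
        (N : ℝ) ≤ 2 ^ n * (n * Real.log n + n * Real.log (Real.log n) + 5 * n) ∧
        0 < (volume (F - F)).toReal ∧
        ∃ G : Fin N → Set (EuclideanSpace ℝ (Fin n)),
          (⋃ i, G i) = F ∧
          (∀ i j, i ≠ j → Disjoint (G i) (G j)) ∧
          ∀ i, ∀ u : EuclideanSpace ℝ (Fin n), ‖u‖ = 1 →
            sSup ((fun x => inner ℝ u x) '' G i) - sInf ((fun x => inner ℝ u x) '' G i)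
              < sSup ((fun x => inner ℝ u x) '' F) - sInf ((fun x => inner ℝ u x) '' F) := by
  obtain ⟨C, hC⟩ : ∃ C : Set (EuclideanSpace ℝ (Fin n)), C = (2:ℝ)⁻¹ • (F - F) := ⟨_, rfl⟩
  obtain ⟨hCk, hCc, hC0, hCs, hCv, hCF, hFD, hD⟩ := half_facts hF hFc hFi hC
  have hfr : Module.finrank ℝ (EuclideanSpace ℝ (Fin n)) = n := by simp
  rw [hfr] at hD
  have hCt : volume C < ⊤ := hCk.measure_lt_top
  have hFt : volume (F + C) < ⊤ := (hF.add hCk).measure_lt_top
  have hV0 : 0 < (volume C).toReal := ENNReal.toReal_pos hCv.ne' hCt.ne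
  have hVW : (volume C).toReal ≤ (volume (F + C)).toReal := ENNReal.toReal_mono hFt.ne hCF
  have hDv : (volume (F - F)).toReal = 2 ^ n * (volume C).toReal := by
    rw [hD, ENNReal.toReal_mul, ENNReal.toReal_ofReal (by positivity)]
  have hWV : (volume (F + C)).toReal ≤ 2 ^ n * (volume C).toReal := by
    rw [← hDv]
    apply ENNReal.toReal_mono _ hFD
    rw [hD]
    exact (ENNReal.mul_lt_top ENNReal.ofReal_lt_top hCt).ne
  have h3F : (3:ℝ) • F - F = (2:ℝ) • (F + C) := by
    have h1 : (3:ℝ) • F = (2:ℝ) • F + F := by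
      have := hFc.add_smul (p := 2) (q := 1) (by norm_num) (by norm_num)
      rw [one_smul] at this
      rw [← this]
      norm_num
    have h2 : (2:ℝ) • C = F - F := by
      rw [hC, smul_smul]
      norm_num
    rw [smul_add, h2, h1, add_sub_assoc]
  have h3v : (volume ((3:ℝ) • F - F)).toReal = 2 ^ n * (volume (F + C)).toReal := by
    rw [h3F, toReal_smul_vol _ (by norm_num), hfr]
  set R : ℝ := (volume (F + C)).toReal / (volume C).toReal with hR
  have hR1 : 1 ≤ R := by
    rw [hR, one_le_div hV0]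
    exact hVW
  obtain ⟨δ, hδ⟩ : ∃ δ : ℝ, δ = 1 / (8 * n * Real.log n) := ⟨_, rfl⟩
  obtain ⟨hδ0, hδ1, hnum⟩ := numeric hn hR1 rfl hδ
  set X : ℝ := (n * Real.log (4 / δ)) * R / (1 - 2 * δ) ^ n with hX
  have hm : X < (⌊X⌋₊ + 1 : ℕ) := by
    push_cast
    exact Nat.lt_floor_add_one X
  obtain ⟨c, hc⟩ := cover hF hFc hFi hC hδ0 (by linarith) (ρ := 1 - 2 * δ) (by linarith)
    (by linarith) (⌊X⌋₊ + 1) (by rw [hfr]; exact hm)
  have hX0 : 0 ≤ X := by
    have h4 : 1 ≤ 4 / δ := by
      rw [one_le_div hδ0]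
      linarith
    have := Real.log_nonneg h4
    have h5 : 0 < 1 - 2 * δ := by linarith
    positivity
  have hNX : ((⌊X⌋₊ + 1 : ℕ) : ℝ) ≤ X + 1 := by
    push_cast
    have := Nat.floor_le hX0
    linarith
  set B : ℝ := n * Real.log n + n * Real.log (Real.log n) + 5 * n with hB
  have hNR : ((⌊X⌋₊ + 1 : ℕ) : ℝ) ≤ R * B := hNX.trans hnum
  have hB0 : 0 ≤ B := by
    have h1 : 0 < R * B := by
      have : (0:ℝ) < ((⌊X⌋₊ + 1 : ℕ) : ℝ) := by positivity
      linarith
    by_contra hneg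
    push Not at hneg
    nlinarith
  refine ⟨⌊X⌋₊ + 1, ?_, ?_, by rw [hDv]; positivity, ?_⟩
  · rw [hDv, h3v]
    calc ((⌊X⌋₊ + 1 : ℕ) : ℝ) * (2 ^ n * (volume C).toReal)
        ≤ R * B * (2 ^ n * (volume C).toReal) := by gcongr
      _ = 2 ^ n * (volume (F + C)).toReal * B := by
          rw [hR]
          field_simp
  · refine hNR.trans ?_
    have : R ≤ 2 ^ n := by
      rw [hR, div_le_iff₀ hV0]
      exact hWV
    gcongr
  · set K : Fin (⌊X⌋₊ + 1) → Set (EuclideanSpace ℝ (Fin n)) :=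
      fun i => F ∩ {x | x - c i ∈ (1 - 2 * δ + δ) • C} with hK
    refine ⟨disjointed K, ?_, ?_, ?_⟩
    · rw [iUnion_disjointed]
      apply Subset.antisymm
      · exact iUnion_subset fun i => inter_subset_left
      · intro x hx
        obtain ⟨i, hi⟩ := hc x hx
        exact mem_iUnion.mpr ⟨i, hx, hi⟩
    · intro i j hij
      exact disjoint_disjointed K hij
    · intro i u hu
      have hsub : disjointed K i ⊆ K i := disjointed_subset K i
      exact width_lt hF hFi hC (r := 1 - 2 * δ + δ) (by linarith) (by linarith)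
        (fun x hx => (hsub hx).2) hu

/-- Every convex body `F` in `ℝⁿ`, `n ≥ 4`, is the union of
`N ≤ (vol(3F - F) / vol(F - F)) (n ln n + n ln ln n + 5n) ≤ 2ⁿ (n ln n + n ln ln n + 5n)`
pairwise disjoint sets of strictly smaller width in every unit direction. -/
theorem result :
    ∀ n : ℕ, 4 ≤ n → ∀ F : Set (EuclideanSpace ℝ (Fin n)),
      Convex ℝ F → IsCompact F → (interior F).Nonempty →
      ∃ N : ℕ,
        (N : ℝ) * (volume (F - F)).toReal ≤
          (volume ((3:ℝ) • F - F)).toReal *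
            (n * Real.log n + n * Real.log (Real.log n) + 5 * n) ∧
        (N : ℝ) ≤ 2 ^ n * (n * Real.log n + n * Real.log (Real.log n) + 5 * n) ∧
        ∃ G : Fin N → Set (EuclideanSpace ℝ (Fin n)),
          (⋃ i, G i) = F ∧
          (∀ i j, i ≠ j → Disjoint (G i) (G j)) ∧
          ∀ i, ∀ u : EuclideanSpace ℝ (Fin n), ‖u‖ = 1 →
            sSup ((fun x => inner ℝ u x) '' G i) - sInf ((fun x => inner ℝ u x) '' G i)
              < sSup ((fun x => inner ℝ u x) '' F) - sInf ((fun x => inner ℝ u x) '' F) := by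
  intro n hn F hFc hF hFi
  obtain ⟨N, h1, h2, -, G, hG⟩ := main n hn F hFc hF hFi
  exact ⟨N, h1, h2, G, hG⟩

end Pool.Agent.Results.MP_b9beb9_co.AllDimensions
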