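import Pool.Agent.H60.SW.Simplex

/-!
# Every body in three-dimensional space is a union of eleven sets of smaller width
-/

set_option autoImplicit false

namespace Pool.Agent.Results.MP_b9beb9_co.ElevenParts

open Set Pool.Agent.H60.SW

/-- If no antipodal pair lies in the compact set `G`, its subsets have smaller width than `F`. -/
theorem width_lt {F : Set E3} (hc : IsCompact F) (hF : (interior F).Nonempty) {T : Fin 4 → E3}
    (hT : ∀ i, T i ∈ F) (hv : Vol T ≠ 0) {G : Set (Fin 4 → ℝ)} (hG : IsCompact G)
    (hGD : ∀ x ∈ G, ∀ y ∈ G, ¬ Dr (lam T '' F) x y) {H : Set E3} (hHF : H ⊆ F)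
    (hHG : ∀ x ∈ H, lam T x ∈ G) {u : E3} (hu : ‖u‖ = 1) :
    sSup ((fun x => inner ℝ u x) '' H) - sInf ((fun x => inner ℝ u x) '' H)
      < sSup ((fun x => inner ℝ u x) '' F) - sInf ((fun x => inner ℝ u x) '' F) := by
  set f : E3 → ℝ := fun x => inner ℝ u x with hf
  have hfc : Continuous f := by
    rw [hf]
    fun_prop
  have hcF : IsCompact (f '' F) := hc.image hfc
  have hbA : BddAbove (f '' F) := hcF.bddAbove
  have hbB : BddBelow (f '' F) := hcF.bddBelow
  set M : ℝ := sSup (f '' F) with hM
  set m : ℝ := sInf (f '' F) with hm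
  have hMF : ∀ z ∈ F, f z ≤ M := fun z hz => le_csSup hbA (mem_image_of_mem f hz)
  have hmF : ∀ z ∈ F, m ≤ f z := fun z hz => csInf_le hbB (mem_image_of_mem f hz)
  -- the width of `F` is positive
  have hpos : m < M := by
    obtain ⟨x, hx⟩ := hF
    obtain ⟨r, hr, hball⟩ := Metric.isOpen_iff.mp isOpen_interior x hx
    have hxF : x ∈ F := interior_subset hx
    have hyF : x + (r / 2) • u ∈ F := by
      apply interior_subset
      apply hball
      rw [Metric.mem_ball, dist_eq_norm, add_sub_cancel_left, norm_smul, hu, mul_one,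
        Real.norm_of_nonneg (by positivity)]
      linarith
    have e : f (x + (r / 2) • u) = f x + r / 2 := by
      rw [hf]
      simp only [inner_add_right, inner_smul_right, real_inner_self_eq_norm_sq, hu]
      ring
    have h1 := hMF _ hyF
    have h2 := hmF _ hxF
    rw [e] at h1
    linarith
  rcases H.eq_empty_or_nonempty with hH | hH
  · rw [hH, image_empty, Real.sSup_empty, Real.sInf_empty]
    linarith
  -- the larger compact set
  set K : Set E3 := F ∩ lam T ⁻¹' G with hK
  have hKc : IsCompact K := hc.inter_right (hG.isClosed.preimage (continuous_lam T))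
  have hHK : H ⊆ K := fun x hx => ⟨hHF hx, hHG x hx⟩
  have hKne : K.Nonempty := hH.mono hHK
  have hcK : IsCompact (f '' K) := hKc.image hfc
  have h1 : sSup (f '' H) ≤ sSup (f '' K) :=
    csSup_le_csSup hcK.bddAbove (hH.image f) (image_mono hHK)
  have h2 : sInf (f '' K) ≤ sInf (f '' H) :=
    csInf_le_csInf hcK.bddBelow (hH.image f) (image_mono hHK)
  obtain ⟨x, hxK, hx⟩ := hcK.sSup_mem (hKne.image f)
  obtain ⟨y, hyK, hy⟩ := hcK.sInf_mem (hKne.image f)
  rw [← hx] at h1
  rw [← hy] at h2
  by_contra hcon
  push Not at hcon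
  have hxM := hMF x hxK.1
  have hym := hmF y hyK.1
  have ex : f x = M := by linarith
  have ey : f y = m := by linarith
  -- the antipodal pair
  have hd : M - m ≠ 0 := by linarith
  have hlin : ∀ z : E3, ∑ i, lam T z i * ((f (T i) - m) / (M - m)) = (f z - m) / (M - m) := by
    intro z
    have e1 : f z = ∑ i, lam T z i * f (T i) := by
      have h := congrArg f (lam_eq hv z)
      rw [← h, hf]
      simp only [inner_sum, inner_smul_right]
    have e2 := lam_sum hv z
    rw [e1]
    have e3 : (∑ i, lam T z i * f (T i) - m) / (M - m) =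
        ∑ i, lam T z i * f (T i) / (M - m) - (∑ i, lam T z i) * m / (M - m) := by
      rw [e2, one_mul, sub_div, Finset.sum_div]
    rw [e3, Finset.sum_mul, Finset.sum_div, ← Finset.sum_sub_distrib]
    exact Finset.sum_congr rfl fun i _ => by ring
  refine hGD _ hxK.2 _ hyK.2 ⟨fun i => (f (T i) - m) / (M - m), ?_, ?_, ?_, ?_⟩
  · intro i
    constructor
    · exact div_nonneg (by linarith [hmF _ (hT i)]) (by linarith)
    · rw [div_le_one (by linarith)]
      linarith [hMF _ (hT i)]
  · rintro z ⟨w, hw, rfl⟩
    rw [hlin w]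
    constructor
    · exact div_nonneg (by linarith [hmF _ hw]) (by linarith)
    · rw [div_le_one (by linarith)]
      linarith [hMF _ hw]
  · rw [hlin x, ex, div_self hd]
  · rw [hlin y, ey, sub_self, zero_div]

/-- Every compact set with nonempty interior in three-dimensional Euclidean space (in particular
every convex body) can be split into eleven pairwise disjoint subsets, each having strictly smaller
width than the whole set in every unit direction. -/
theorem result :
    ∀ F : Set (EuclideanSpace ℝ (Fin 3)), IsCompact F → (interior F).Nonempty →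
      ∃ G : Fin 11 → Set (EuclideanSpace ℝ (Fin 3)),
        (⋃ i, G i) = F ∧
        (∀ i j, i ≠ j → Disjoint (G i) (G j)) ∧
        ∀ i, ∀ u : EuclideanSpace ℝ (Fin 3), ‖u‖ = 1 →
          sSup ((fun x => inner ℝ u x) '' G i) - sInf ((fun x => inner ℝ u x) '' G i)
            < sSup ((fun x => inner ℝ u x) '' F) - sInf ((fun x => inner ℝ u x) '' F) := by
  intro F hc hF
  obtain ⟨T, hT, hv, hctx⟩ := exists_ctx hc hF
  obtain ⟨G, g1, -, g3, g4⟩ := core hctx
  set K : Fin 11 → Set E3 := fun i => F ∩ lam T ⁻¹' G i with hK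
  refine ⟨disjointed K, ?_, ?_, ?_⟩
  · rw [iUnion_disjointed]
    apply Subset.antisymm
    · exact iUnion_subset fun i => inter_subset_left
    · intro x hx
      obtain ⟨i, hi⟩ := mem_iUnion.mp (g3 (mem_image_of_mem _ hx))
      exact mem_iUnion.mpr ⟨i, hx, hi⟩
  · intro i j hij
    exact disjoint_disjointed K hij
  · intro i u hu
    have hsub : disjointed K i ⊆ K i := disjointed_subset K i
    exact width_lt hc hF hT hv (g1 i) (g4 i) (fun x hx => (hsub hx).1)
      (fun x hx => (hsub hx).2) hu

end Pool.Agent.Results.MP_b9beb9_co.ElevenParts
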