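import Pool.Agent.H11.SWF.Defs
import Pool.Agent.H11.SWF.Parts
import Pool.Agent.H11.SWF.Frac

/-!
# Parts of smaller width: the fractional form of the question, and polytopes
-/

set_option autoImplicit false

open scoped Pointwise

namespace Pool.Agent.Results.MP_b9beb9_co.FractionalForm

open Pool.Agent.H11.SWD

/-- Let `F` be a convex body in `ℝⁿ` and `R = vol (3F - F) / vol (F - F)`. Then `R ≤ 2ⁿ`, and
(1) for every `ε > 0` there are finitely many subsets `G j` of `F` of smaller width and weights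
`p j ≥ 0` of sum at most `(1 + ε) R` such that every point of `F` is covered with weight `≥ 1`;
(2) every finite `S ⊆ F` with weights `w ≥ 0` has a subset `A` of smaller width with
`w(A) ≥ w(S) / R`;
(3) if `F` is the convex hull of at most `k 2ⁿ` points, then `F` is the union of
`N ≤ 2ⁿ (1 + 1/2 + ... + 1/k)` pairwise disjoint sets of smaller width. -/
theorem result (n : ℕ) (F : Set (EuclideanSpace ℝ (Fin n))) (hF : Body F) :
    0 < vol (mix 1 F) ∧ vol (mix 3 F) ≤ 2 ^ n * vol (mix 1 F) ∧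
    (∀ ε : ℝ, 0 < ε → ∃ (m : ℕ) (G : Fin m → Set (EuclideanSpace ℝ (Fin n))) (p : Fin m → ℝ),
        (∀ j, 0 ≤ p j ∧ G j ⊆ F ∧ Smaller (G j) F) ∧
        (∀ x ∈ F, 1 ≤ ∑ j, (G j).indicator (fun _ => p j) x) ∧
        (∑ j, p j) * vol (mix 1 F) ≤ (1 + ε) * vol (mix 3 F)) ∧
    (∀ (S : Finset (EuclideanSpace ℝ (Fin n))) (w : EuclideanSpace ℝ (Fin n) → ℝ),
        (∀ s ∈ S, s ∈ F ∧ 0 ≤ w s) →
        ∃ A : Finset (EuclideanSpace ℝ (Fin n)), A ⊆ S ∧ Smaller {s | s ∈ A} F ∧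
          vol (mix 1 F) * ∑ s ∈ S, w s ≤ vol (mix 3 F) * ∑ s ∈ A, w s) ∧
    (∀ (k : ℕ) (S : Finset (EuclideanSpace ℝ (Fin n))), hull S = F → S.card ≤ k * 2 ^ n →
        ∃ (N : ℕ) (G : Fin N → Set (EuclideanSpace ℝ (Fin n))),
          (N : ℝ) ≤ 2 ^ n * ∑ j ∈ Finset.range k, 1 / ((j : ℝ) + 1) ∧ Parts G F) := by
  obtain ⟨hFc, hFk, hFi⟩ := hF
  have e1 : mix 1 F = F - F := by
    ext z
    simp only [mix, one_smul, Set.mem_ofPred_eq, Set.mem_sub]
  have e3 : mix 3 F = (3:ℝ) • F - F := by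
    ext z
    simp only [mix, Set.mem_ofPred_eq, Set.mem_sub, Set.mem_smul_set]
    constructor
    · rintro ⟨x, hx, y, hy, h⟩
      exact ⟨(3:ℝ) • x, ⟨x, hx, rfl⟩, y, hy, h⟩
    · rintro ⟨_, ⟨x, hx, rfl⟩, y, hy, h⟩
      exact ⟨x, hx, y, hy, h⟩
  obtain ⟨hCk, hCc, hC0, hCs, hCv, hCF, hFD, hD⟩ :=
    Pool.Agent.H96.SWP.half_facts hFk hFc hFi (C := (2:ℝ)⁻¹ • (F - F)) rfl
  obtain ⟨hv1, hv3⟩ := Pool.Agent.H11.SWF.vol_facts hFc (C := (2:ℝ)⁻¹ • (F - F)) rfl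
  have hCt := hCk.measure_lt_top (μ := MeasureTheory.volume)
  have hDt : MeasureTheory.volume (F - F) ≠ ⊤ := by
    rw [hv1]
    exact (ENNReal.mul_lt_top (by simp) hCt).ne
  rw [e1, e3]
  refine ⟨?_, ?_, fun ε hε => Pool.Agent.H11.SWF.fractional_finite hFc hFk hFi hε,
    fun S w h => ?_, fun k S hSF hk => ?_⟩
  · apply ENNReal.toReal_pos _ hDt
    rw [hv1]
    exact mul_ne_zero (by simp) hCv.ne'
  · rw [vol, vol, hv3, ENNReal.toReal_mul, ENNReal.toReal_pow, ENNReal.toReal_ofNat]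
    apply mul_le_mul_of_nonneg_left _ (by positivity)
    exact ENNReal.toReal_mono hDt hFD
  · exact Pool.Agent.H11.SWF.weighted hFc hFk hFi S (fun s hs => (h s hs).1) w
      (fun s hs => (h s hs).2)
  · obtain ⟨N, hN, G, hG⟩ := Pool.Agent.H11.SWF.polytope hFc hFk hFi k S hSF hk
    exact ⟨N, G, hN, hG⟩

end Pool.Agent.Results.MP_b9beb9_co.FractionalForm
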