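import Pool.Agent.H11.SWS.Defs
import Pool.Agent.H11.SWS.Final

/-!
# Parts of smaller width: sums, convex hulls, illuminated points, regular directions
-/

set_option autoImplicit false

namespace Pool.Agent.Results.MP_b9beb9_co.SumsAndHulls

open Pool.Agent.H11.SWD

/-- Rules for the number of parts of smaller width, and two families of convex bodies in `ℝⁿ` which
have a partition into `2ⁿ` parts of smaller width. -/
theorem result (n : ℕ) (F : Set (EuclideanSpace ℝ (Fin n))) (hF : Body F) :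
    -- (1) illuminated points and convex hulls
    (∀ (m k : ℕ) (d : Fin m → EuclideanSpace ℝ (Fin n)) (S T : Set (EuclideanSpace ℝ (Fin n))),
      Cpt S → conv S = F → Small T F k → (∀ x ∈ S, (∀ i, Dark F (d i) x) → x ∈ T) →
      Split F (m + k)) ∧
    -- (2) sharp points of a direction
    (∀ (m k : ℕ) (e : EuclideanSpace ℝ (Fin n)) (T : Set (EuclideanSpace ℝ (Fin n))),
      Small T F k → Cov F F (fun u => ip u e = 0) m →
      (∀ x u v, Outer F u x → Outer F v x → 0 < ip u e → ip v e < 0 → x ∈ T) →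
      Split F (2 * m + k)) ∧
    -- (3) sums
    (∀ (p q : ℕ) (K L : Set (EuclideanSpace ℝ (Fin n))), Summands K L F →
      Cov L L (fun u => InSpan u (diffs L)) p → Cov K K (fun u => Perp u (diffs L)) q →
      Split F (p * q)) ∧
    -- (4) summands of dimension at most two and regular directions
    (∀ (r s : ℕ) (K L : Fin r → Set (EuclideanSpace ℝ (Fin n)))
      (e : Fin s → EuclideanSpace ℝ (Fin n)), (∀ i, Summands (K i) (L i) F ∧ dm (L i) ≤ 2) →
      rk (joint L e s) = tot (fun i => dm (L i)) + s → n ≤ tot (fun i => dm (L i)) + s + 2 →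
      (∀ j, Regular F (joint L e j.val) (e j)) → Split F (2 ^ n)) ∧
    -- (5) low-dimensional and smooth pieces
    (∀ (m r : ℕ) (d : Fin m → EuclideanSpace ℝ (Fin n)) (S : Set (EuclideanSpace ℝ (Fin n)))
      (K : Fin r → Set (EuclideanSpace ℝ (Fin n))) (c : Fin r → ℕ),
      Cpt S → conv S = F →
      (∀ j, Cpt (K j) ∧ K j ⊆ F ∧
        ((dm (K j) ≤ 2 ∧ c j = 2 ^ dm (K j)) ∨ (Smooth (K j) ∧ c j = dm (K j) + 1))) →
      (∀ x ∈ S, (∀ i, Dark F (d i) x) → ∃ j, x ∈ K j) →
      m + tot c ≤ 2 ^ n → Split F (2 ^ n)) := by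
  obtain ⟨-, hFk, hFi⟩ := hF
  refine ⟨fun m k d S T hS hSF hT h => ?_, fun m k e T hT hm h => ?_,
    fun p q K L hKL hL hK => ?_,
    fun r s K L e hs hd hn h => ?_, fun m r d S K c hS hSF hK h hn => ?_⟩
  · exact Pool.Agent.H11.SWS.illuminated hFk hFi d hS hSF h
      (Pool.Agent.H11.SWS.goodOn_of_cov hFk hT.1 hT.2.1 hT.2.2 fun _ _ => trivial)
  · exact Pool.Agent.H11.SWS.sharp hFk hFi e hT.1 hT.2.1 h hT.2.2 hm
  · refine Pool.Agent.H11.SWS.product hKL hFi hL ?_
    obtain ⟨A, hA, hA2⟩ := hK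
    exact ⟨A, hA, fun i u hu hp => hA2 i u hu fun w hw => hp w (Submodule.subset_span hw)⟩
  · have e1 : Submodule.span ℝ ((⋃ j, ((dirs (L j) : Submodule ℝ (EuclideanSpace ℝ (Fin n))) :
        Set _)) ∪ Set.range e) = Submodule.span ℝ (joint L e s) := by
      apply le_antisymm
      · apply Submodule.span_le.mpr
        rintro w (hw | ⟨i, rfl⟩)
        · obtain ⟨j, hj⟩ := Set.mem_iUnion.mp hw
          exact Submodule.span_mono (fun x hx => Or.inl ⟨j, hx⟩) hj
        · exact Submodule.subset_span (Or.inr ⟨i, i.2, rfl⟩)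
      · apply Submodule.span_mono
        rintro w (⟨i, hi⟩ | ⟨i, -, rfl⟩)
        · exact Or.inl (Set.mem_iUnion.mpr ⟨i, Submodule.subset_span hi⟩)
        · exact Or.inr ⟨i, rfl⟩
    refine Pool.Agent.H11.SWS.main hFk hFi (K := K) (L := L) e (fun j => (hs j).1)
      (fun j => (hs j).2) (by rw [e1]; exact hd) hn ?_
    intro j x u v hu hv hu2 hv2 huv
    have h3 : joint L e j.val ⊆ (⋃ i, ((dirs (L i) : Submodule ℝ (EuclideanSpace ℝ (Fin n))) :
        Set _)) ∪ {w | ∃ i, i < j ∧ e i = w} := by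
      rintro w (⟨i, hi⟩ | ⟨i, hi, rfl⟩)
      · exact Or.inl (Set.mem_iUnion.mpr ⟨i, Submodule.subset_span hi⟩)
      · exact Or.inr ⟨i, hi, rfl⟩
    exact h j x u v hu hv (fun w hw => hu2 w (h3 hw)) (fun w hw => hv2 w (h3 hw)) huv.1 huv.2
  · exact Pool.Agent.H11.SWS.pieces hFk hFi d K c hS hSF (fun j => ⟨(hK j).1, (hK j).2.1⟩)
      (fun j => (hK j).2.2) h hn

end Pool.Agent.Results.MP_b9beb9_co.SumsAndHulls
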